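import Mathlib

/-!
# Singly periodic Costas arrays (MP_a0d5d0_co): definitions

Columns and rows are numbered `0, ..., n - 1`.
-/

set_option autoImplicit false

namespace Pool.Agent.CSP

open Finset

/-- Every cyclic shift of the columns of the array of `f` has the Costas property (the condition
of the frozen statement of the problem). -/
def SP {n : ℕ} (f : Fin n → Fin n) : Prop :=
  ∀ s i j k l : Fin n, i ≠ j → ((j : ℕ) : ℤ) - ((i : ℕ) : ℤ) = ((l : ℕ) : ℤ) - ((k : ℕ) : ℤ) →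
    (((f (s + j) : ℕ) : ℤ) - ((f (s + i) : ℕ) : ℤ) =
      ((f (s + l) : ℕ) : ℤ) - ((f (s + k) : ℕ) : ℤ)) → i = k

/-- `f` is a `W₁` (exponential Welch) array of order `p - 1` -/
def W1 (p : ℕ) (f : Fin (p - 1) → Fin (p - 1)) : Prop :=
  p.Prime ∧ ∃ g : ZMod p, orderOf g = p - 1 ∧
    ∃ c : ℕ, ∀ i : Fin (p - 1), (((f i : ℕ) + 1 : ℕ) : ZMod p) = g ^ ((i : ℕ) + c)

/-- the differences `(a - b, f a - f b)`, `a ≠ b`, are distinct in `ℤ/n × ℤ` -/
def Sid {n : ℕ} (f : Fin n → Fin n) : Prop :=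
  ∀ a b c e : Fin n, a ≠ b → a + e = c + b → (f a : ℕ) + f e = f c + f b → a = c

open Classical in
/-- the columns `a ≠ i` which belong to a representation `(i, y) = A + B - C` by three dots -/
noncomputable def rep {n : ℕ} (f : Fin n → Fin n) (i y : Fin n) : Finset (Fin n) :=
  univ.filter (fun a => a ≠ i ∧ ∃ b c : Fin n, a + b = i + c ∧ (f a : ℕ) + f b = y + f c)

open Classical in
/-- cells with few representations -/
noncomputable def bad {n : ℕ} (f : Fin n → Fin n) (s : ℕ) : Finset (Fin n × Fin n) :=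
  univ.filter (fun x => (rep f x.1 x.2).card ≤ s)

/-- `(i, y)` is excluded by the dots of `f` in the columns of `J` -/
def Cov {n : ℕ} (f : Fin n → Fin n) (J : Finset (Fin n)) (i y : Fin n) : Prop :=
  ∃ a ∈ J, ∃ b ∈ J, ∃ c ∈ J, a ≠ i ∧ b ≠ i ∧ a + b = i + c ∧ (f a : ℕ) + f b = y + f c

/-- the columns of colour `0` -/
def col {n q : ℕ} (h : Fin n → Fin (q + 1)) : Finset (Fin n) := univ.filter (fun i => h i = 0)

open Classical in
/-- the number of the arrays in question which are contained in `C` -/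
noncomputable def cnt {n : ℕ} (C : Finset (Fin n × Fin n)) : ℕ :=
  (univ.filter (fun f : Fin n → Fin n => Function.Bijective f ∧ Sid f ∧ ∀ i, (i, f i) ∈ C)).card

/-- a colouring is good for `f` and `C` -/
def Gd {n q : ℕ} (s : ℕ) (f : Fin n → Fin n) (C : Finset (Fin n × Fin n))
    (h : Fin n → Fin (q + 1)) : Prop :=
  (q + 1) * (col h).card ≤ 4 * n ∧
  (q + 1) * (C.filter (fun x => x.1 ∈ col h ∧ x.2 ≠ f x.1)).card ≤
    4 * (C.filter (fun x => x.2 ≠ f x.1)).card ∧
  ∀ x : Fin n × Fin n, x.2 ≠ f x.1 → s < (rep f x.1 x.2).card → Cov f (col h) x.1 x.2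

end Pool.Agent.CSP
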