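import Mathlib
import Pool.Agent.Lib_helper89.CSP.Defs
set_option autoImplicit false

/-!
# Singly periodic Costas arrays: working definitions
-/

namespace Pool.Agent.CSP

open Finset

/-- the solutions `(u, v)`, `1 ≤ u, v ≤ p - 1`, of `u v ≡ w (u + v - y)` modulo `p` -/
def Hyp (p w y u v : ℕ) : Prop :=
  1 ≤ u ∧ u < p ∧ 1 ≤ v ∧ v < p ∧ (p : ℤ) ∣ (u : ℤ) * v - w * ((u : ℤ) + v - y)

open Classical in
/-- the column differences which do not occur between two dots whose rows differ by `d` -/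
noncomputable def miss {n : ℕ} (f : Fin n → Fin n) (d : ℤ) : Finset (Fin n) :=
  univ.filter (fun k => ¬ ∃ b c : Fin n, b = k + c ∧ ((f b : ℕ) : ℤ) - ((f c : ℕ) : ℤ) = d)

/-- the difference of the rows of the cell `x` and of the dot in the column `a` -/
def dd {n : ℕ} (f : Fin n → Fin n) (x : Fin n × Fin n) (a : Fin n) : ℤ :=
  ((x.2 : ℕ) : ℤ) - ((f a : ℕ) : ℤ)

open Classical in
/-- incidences -/
noncomputable def inc {n : ℕ} (f : Fin n → Fin n) (s : ℕ) : Finset ((Fin n × Fin n) × Fin n) :=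
  univ.filter (fun t => t.1 ∈ bad f s ∧ 10 * s < (dd f t.1 t.2).natAbs ∧
    (dd f t.1 t.2).natAbs ≤ 640 * s ∧ t.2 ∉ rep f t.1.1 t.1.2)

/-- harmonic sum -/
noncomputable def HH (s : ℕ) : ℝ := ∑ d ∈ Ioc (10 * s) (640 * s), 1 / (d : ℝ)

open Classical in
/-- the cells of `C` which remain possible when the dots in the columns of `J` are those of `φ` -/
noncomputable def rest {n : ℕ} (C : Finset (Fin n × Fin n)) (J : Finset (Fin n))
    (φ : Fin n → Fin n) : Finset (Fin n × Fin n) :=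
  C.filter (fun x => (x.1 ∈ J → x.2 = φ x.1) ∧ ¬ Cov φ J x.1 x.2)

open Classical in
/-- the functions on `J` with graph in `C`, extended by zero -/
noncomputable def phis {n : ℕ} [NeZero n] (C : Finset (Fin n × Fin n)) (J : Finset (Fin n)) :
    Finset (Fin n → Fin n) :=
  univ.filter (fun φ => (∀ i ∈ J, (i, φ i) ∈ C) ∧ ∀ i, i ∉ J → φ i = 0)

end Pool.Agent.CSP
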