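import Mathlib
import Pool.Agent.Lib_helper89.CSP.Defs2
import Pool.Agent.Lib_helper89.CSP.R.A1
import Pool.Agent.Lib_helper89.CSP.R.I5
import Pool.Agent.Lib_helper89.CSP.R.I6
import Pool.Agent.Lib_helper89.CSP.R.I7
import Pool.Agent.Lib_helper89.CSP.R.I8
import Pool.Agent.Lib_helper89.CSP.R.E3
set_option autoImplicit false

namespace Pool.Agent.CSP

open Finset

theorem count : ∃ C : ℝ, 0 < C ∧ ∀ n : ℕ, 2 ≤ n →
    (Nat.card {f : Fin n → Fin n // Function.Bijective f ∧ SP f} : ℝ) ≤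
      Real.exp (C * (n : ℝ) ^ (2 / 3 : ℝ) * Real.log n ^ (4 / 3 : ℝ)) := by
  classical
  obtain ⟨C, hC, h⟩ := cnt_all
  refine ⟨C, hC, fun n hn => le_trans ?_ (h n hn)⟩
  have h1 : Nat.card {f : Fin n → Fin n // Function.Bijective f ∧ SP f} ≤
      cnt (univ : Finset (Fin n × Fin n)) := by
    rw [Nat.card_eq_fintype_card, Fintype.card_subtype, cnt]
    apply card_le_card
    intro f hf
    rw [mem_filter] at hf ⊢
    exact ⟨hf.1, hf.2.1, sid_of_sp f hf.2.1 hf.2.2, fun i => mem_univ _⟩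
  exact_mod_cast h1

theorem isolated (p : ℕ) (f h : Fin (p - 1) → Fin (p - 1)) (hf : W1 p f)
    (hh : Function.Bijective h) (hS : SP h) (hne : f ≠ h) :
    p ≤ 20 * (univ.filter (fun i => f i ≠ h i)).card + 7 := by
  classical
  obtain ⟨i, hi⟩ := Function.ne_iff.mp hne
  have hfb := welch_bij hf
  have hp := hf.1
  have hsid := sid_of_sp h hh hS
  have hlt : ∀ j : Fin (p - 1), (j : ℕ) + 1 < p := fun j => by have := j.2; omega
  set T0 : Finset (Fin (p - 1) × Fin (p - 1)) := univ.filter (fun t =>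
    ∃ c : Fin (p - 1), t.1 + t.2 = i + c ∧ (f t.1 : ℕ) + f t.2 = h i + f c) with hT0
  have h4 := few_rep (welch_sid hf) hfb.1 hsid hh.1 i hi T0
    (fun t ht => (mem_filter.mp ht).2)
  set T : Finset (ℕ × ℕ) := T0.image (fun t => ((f t.1 : ℕ) + 1, (f t.2 : ℕ) + 1)) with hT
  have hne' : (f i : ℕ) + 1 ≠ (h i : ℕ) + 1 := by
    intro h'
    exact hi (Fin.ext (by omega))
  have h5 := hyp_count hp (w := (f i : ℕ) + 1) (y := (h i : ℕ) + 1) (by omega) (hlt _) (by omega)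
    (hlt _) hne' T (by
      intro u v hH h1 h2
      obtain ⟨hu1, hu2, hv1, hv2, hd⟩ := hH
      obtain ⟨a, ha⟩ := hfb.2 ⟨u - 1, by omega⟩
      obtain ⟨b, hb⟩ := hfb.2 ⟨v - 1, by omega⟩
      have ha' : (f a : ℕ) + 1 = u := by rw [ha]; simp only; omega
      have hb' : (f b : ℕ) + 1 = v := by rw [hb]; simp only; omega
      subst ha' hb'
      obtain ⟨c, hc1, hc2⟩ := welch_hyp hf (y := h i) ⟨hu1, hu2, hv1, hv2, hd⟩ (by omega) (by omega)
      rw [hT, mem_image]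
      exact ⟨(a, b), mem_filter.mpr ⟨mem_univ _, c, hc1, hc2⟩, rfl⟩)
  have h6 : T.card ≤ T0.card := card_image_le
  omega

end Pool.Agent.CSP
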